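import Pool.Agent.W601.RP.Stm2

/-!
# Project RP, part COEF: null sequences have bounded coefficients
-/

set_option autoImplicit false
open scoped Classical
open Filter Topology

namespace Pool.Agent.W853.RP

open Pool.Agent.W601.RP

theorem N_pos (t : ℕ) : 0 < N t := by
  unfold N
  have := Nat.factorial_pos (t + 1)
  omega

theorem le_N (t : ℕ) : t + 1 ≤ N t := by
  unfold N
  have := Nat.self_le_factorial (t + 1)
  omega

theorem step (k : ℕ → (ℕ →₀ ℤ)) (hred : ∀ j, Red (k j)) (hunb : ∀ C : ℤ, ∃ j t, C < |k j t|)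
    (l thr jp : ℕ) : ∃ j e, jp < j ∧ thr ≤ e ∧ e ∈ (k j).support ∧ (l : ℤ) < |k j e| := by
  have h0 : ∀ j : ℕ, 0 ≤ ∑ t ∈ (k j).support, |k j t| := fun j =>
    Finset.sum_nonneg fun t _ => abs_nonneg _
  have h1 : 0 ≤ ∑ t ∈ Finset.range thr, (N t : ℤ) := Finset.sum_nonneg fun t _ => by positivity
  have h2 : 0 ≤ ∑ j ∈ Finset.range (jp + 1), ∑ t ∈ (k j).support, |k j t| :=
    Finset.sum_nonneg fun j _ => h0 j
  obtain ⟨j, t, hjt⟩ := hunb ((l : ℤ) + ∑ t ∈ Finset.range thr, (N t : ℤ) +
    ∑ j ∈ Finset.range (jp + 1), ∑ t ∈ (k j).support, |k j t|)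
  have hne : k j t ≠ 0 := by
    intro h
    rw [h, abs_zero] at hjt
    have : (0 : ℤ) ≤ l := by positivity
    omega
  have hmem : t ∈ (k j).support := Finsupp.mem_support_iff.mpr hne
  refine ⟨j, t, ?_, ?_, hmem, by omega⟩
  · by_contra hcon
    have hj : j ∈ Finset.range (jp + 1) := Finset.mem_range.mpr (by omega)
    have h3 : |k j t| ≤ ∑ t ∈ (k j).support, |k j t| :=
      Finset.single_le_sum (f := fun t => |k j t|) (fun t _ => abs_nonneg _) hmem
    have h4 : ∑ t ∈ (k j).support, |k j t| ≤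
        ∑ j ∈ Finset.range (jp + 1), ∑ t ∈ (k j).support, |k j t| :=
      Finset.single_le_sum (f := fun j => ∑ t ∈ (k j).support, |k j t|) (fun j _ => h0 j) hj
    have : (0 : ℤ) ≤ l := by positivity
    omega
  · by_contra hcon
    have ht : t ∈ Finset.range thr := Finset.mem_range.mpr (by omega)
    have h3 : (N t : ℤ) ≤ ∑ t ∈ Finset.range thr, (N t : ℤ) :=
      Finset.single_le_sum (f := fun t => (N t : ℤ)) (fun t _ => by positivity) ht
    have h4 := hred j t
    have h5 : |k j t| ≤ N t := by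
      rw [abs_le]
      constructor <;> omega
    have : (0 : ℤ) ≤ l := by positivity
    omega

theorem half_sum (B : ℕ) : ∑ l ∈ Finset.range B, (1 / 2 : ℝ) ^ (l + 2) ≤ 1 / 2 := by
  have h : ∀ B : ℕ, ∑ l ∈ Finset.range B, (1 / 2 : ℝ) ^ (l + 2) = 1 / 2 - (1 / 2 : ℝ) ^ (B + 1) := by
    intro B
    induction B with
    | zero => norm_num
    | succ B ih => rw [Finset.sum_range_succ, ih]; ring
  rw [h]
  have : (0 : ℝ) < (1 / 2 : ℝ) ^ (B + 1) := by positivity
  linarith

theorem coef : S_GH → S_NU0 → S_CIR → S_COEF := by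
  intro hGH hNU hCIR k hred hnull hsupp
  obtain ⟨L, hL⟩ := hsupp
  by_contra hcon
  have hunb : ∀ C : ℤ, ∃ j t, C < |k j t| := by
    intro C
    by_contra h
    push Not at h
    exact hcon ⟨C, h⟩
  obtain ⟨hnu1, -, hnu3⟩ := hNU
  let δ : ℕ → ℝ := fun l => (1 / 2 : ℝ) ^ (l + 2) / (L + 1)
  have hδ : ∀ l, 0 < δ l := fun l => by
    show 0 < (1 / 2 : ℝ) ^ (l + 2) / (L + 1)
    positivity
  have hn0 : ∀ l, ∃ n : ℕ, ∀ t, n ≤ t → nu t ≤ δ l := by
    intro l
    obtain ⟨b, hb⟩ := (hnu1 (δ l) (hδ l)).bddAbove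
    refine ⟨b + 1, fun t ht => ?_⟩
    by_contra h
    have := hb (show t ∈ {t | δ l ≤ nu t} from (not_le.mp h).le)
    omega
  choose n0 hn0 using hn0
  choose J E hJ hE hmem hlarge using step k hred hunb
  let st : ℕ → ℕ × ℕ := fun l => Nat.rec (J 0 (n0 0) 0, E 0 (n0 0) 0)
    (fun l s => (J (l + 1) (max (n0 (l + 1)) ((k s.1).support.sup id + 1)) s.1,
      E (l + 1) (max (n0 (l + 1)) ((k s.1).support.sup id + 1)) s.1)) l
  have st0 : st 0 = (J 0 (n0 0) 0, E 0 (n0 0) 0) := rfl
  have stS : ∀ l, st (l + 1) = (J (l + 1) (max (n0 (l + 1)) ((k (st l).1).support.sup id + 1)) (st l).1,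
      E (l + 1) (max (n0 (l + 1)) ((k (st l).1).support.sup id + 1)) (st l).1) := fun l => rfl
  have fj : ∀ l, (st l).1 < (st (l + 1)).1 := by
    intro l
    rw [stS]
    exact hJ _ _ _
  have fthr : ∀ l, n0 l ≤ (st l).2 := by
    intro l
    cases l with
    | zero => rw [st0]; exact hE _ _ _
    | succ l => rw [stS]; exact (le_max_left _ _).trans (hE _ _ _)
  have fsup : ∀ l, ∀ t ∈ (k (st l).1).support, t < (st (l + 1)).2 := by
    intro l t ht
    rw [stS]
    have h1 : t ≤ (k (st l).1).support.sup id := Finset.le_sup (f := id) ht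
    have h2 := (le_max_right (n0 (l + 1)) ((k (st l).1).support.sup id + 1)).trans
      (hE (l + 1) (max (n0 (l + 1)) ((k (st l).1).support.sup id + 1)) (st l).1)
    simp only
    omega
  have fmem : ∀ l, (st l).2 ∈ (k (st l).1).support := by
    intro l
    cases l with
    | zero => rw [st0]; exact hmem _ _ _
    | succ l => rw [stS]; exact hmem _ _ _
  have flarge : ∀ l : ℕ, (l : ℤ) < |k (st l).1 (st l).2| := by
    intro l
    cases l with
    | zero => rw [st0]; exact hlarge _ _ _
    | succ l => rw [stS]; exact hlarge _ _ _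
  clear_value st
  clear st0 stS hJ hE hmem hlarge J E
  let kk : ℕ → (ℕ →₀ ℤ) := fun l => k (st l).1
  let u : ℕ → ℕ := fun l => (st l).2
  have hu : StrictMono u := strictMono_nat_of_lt_succ fun l => fsup l _ (fmem l)
  have hjm : StrictMono (fun l => (st l).1) := strictMono_nat_of_lt_succ fj
  -- the weights
  have hfin : ∀ s : Finset ℕ, ∑ t ∈ s,
      (⋃ l, {t | t ∈ (kk l).support ∧ u l ≤ t}).indicator nu t ≤ 1 / 2 := by
    intro s
    have h1 : ∀ t ∈ s, (⋃ l, {t | t ∈ (kk l).support ∧ u l ≤ t}).indicator nu t ≤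
        ∑ l ∈ Finset.range (s.sup id + 1), if t ∈ (kk l).support ∧ u l ≤ t then nu t else 0 := by
      intro t ht
      have hnn : ∀ l ∈ Finset.range (s.sup id + 1),
          0 ≤ if t ∈ (kk l).support ∧ u l ≤ t then nu t else 0 := by
        intro l _
        split_ifs
        · exact hnu3 t
        · exact le_rfl
      by_cases hU : t ∈ ⋃ l, {t | t ∈ (kk l).support ∧ u l ≤ t}
      · rw [Set.indicator_of_mem hU]
        obtain ⟨l, hl⟩ := Set.mem_iUnion.mp hU
        have hl' : t ∈ (kk l).support ∧ u l ≤ t := hl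
        have hlB : l ∈ Finset.range (s.sup id + 1) := by
          rw [Finset.mem_range]
          have e1 : l ≤ u l := hu.le_apply
          have e2 : t ≤ s.sup id := Finset.le_sup (f := id) ht
          omega
        refine le_trans ?_ (Finset.single_le_sum hnn hlB)
        rw [if_pos hl']
      · rw [Set.indicator_of_notMem hU]
        exact Finset.sum_nonneg hnn
    calc ∑ t ∈ s, (⋃ l, {t | t ∈ (kk l).support ∧ u l ≤ t}).indicator nu t
        ≤ ∑ t ∈ s, ∑ l ∈ Finset.range (s.sup id + 1),
          (if t ∈ (kk l).support ∧ u l ≤ t then nu t else 0) := Finset.sum_le_sum h1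
      _ = ∑ l ∈ Finset.range (s.sup id + 1), ∑ t ∈ s,
          (if t ∈ (kk l).support ∧ u l ≤ t then nu t else 0) := Finset.sum_comm
      _ ≤ ∑ l ∈ Finset.range (s.sup id + 1), (1 / 2 : ℝ) ^ (l + 2) := by
          refine Finset.sum_le_sum fun l _ => ?_
          rw [← Finset.sum_filter]
          have h2 : ∑ t ∈ s.filter (fun t => t ∈ (kk l).support ∧ u l ≤ t), nu t ≤
              ∑ _t ∈ s.filter (fun t => t ∈ (kk l).support ∧ u l ≤ t), δ l := by
            refine Finset.sum_le_sum fun t ht => ?_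
            exact hn0 l t ((fthr l).trans (Finset.mem_filter.mp ht).2.2)
          refine h2.trans ?_
          rw [Finset.sum_const, nsmul_eq_mul]
          have h3 : (s.filter (fun t => t ∈ (kk l).support ∧ u l ≤ t)).card ≤ L := by
            refine le_trans (Finset.card_le_card ?_) (hL (st l).1)
            intro t ht
            exact (Finset.mem_filter.mp ht).2.1
          have h4 : ((s.filter (fun t => t ∈ (kk l).support ∧ u l ≤ t)).card : ℝ) ≤ L + 1 := by
            have : ((s.filter (fun t => t ∈ (kk l).support ∧ u l ≤ t)).card : ℝ) ≤ L := by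
              exact_mod_cast h3
            linarith
          have h5 : (0 : ℝ) < (L : ℝ) + 1 := by positivity
          calc _ ≤ ((L : ℝ) + 1) * δ l := mul_le_mul_of_nonneg_right h4 (hδ l).le
            _ = (1 / 2 : ℝ) ^ (l + 2) := by
              show ((L : ℝ) + 1) * ((1 / 2 : ℝ) ^ (l + 2) / (L + 1)) = _
              field_simp
      _ ≤ 1 / 2 := half_sum _
  have hnn : ∀ t, 0 ≤ (⋃ l, {t | t ∈ (kk l).support ∧ u l ≤ t}).indicator nu t :=
    fun t => Set.indicator_nonneg (fun t _ => hnu3 t) t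
  have hsum : Summable ((⋃ l, {t | t ∈ (kk l).support ∧ u l ≤ t}).indicator nu) :=
    summable_of_sum_le hnn hfin
  have htsum : (∑' t, (⋃ l, {t | t ∈ (kk l).support ∧ u l ≤ t}).indicator nu t) < 1 := by
    have := hsum.tsum_le_of_sum_le hfin
    linarith
  -- the numbers `a l`
  have ha : ∀ l, ∃ a : ℕ, a < N (u l) ∧
      ‖((((a : ℝ) / (N (u l) : ℝ)) : ℝ) : TT)‖ ≤
        1 / (4 * |((kk l (u l) : ℤ) : ℝ)|) + 1 / (N (u l) : ℝ) ∧
      1 / 4 ≤ ‖(kk l (u l)) • ((((a : ℝ) / (N (u l) : ℝ)) : ℝ) : TT)‖ := by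
    intro l
    refine hCIR.2.2.2.1 (N (u l)) (kk l (u l)) ?_ (Finsupp.mem_support_iff.mp (fmem l))
      (hred _ _).1 (hred _ _).2
    unfold N
    have := Nat.factorial_pos (u l + 1)
    omega
  choose a ha1 ha2 ha3 using ha
  let FF : ℕ → Set (ℕ → ℕ) := fun l => {f | f = 0 ∨ f = fun t => if t = u l then a l else 0}
  have hFF1 : ∀ l, ∀ f ∈ FF l, ∀ t, f t < N t ∧ (f t ≠ 0 → t ∈ (kk l).support ∧ u l ≤ t) := by
    intro l f hf t
    rcases hf with rfl | rfl
    · exact ⟨N_pos t, fun h => absurd rfl h⟩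
    · by_cases ht : t = u l
      · subst ht
        simp only [if_true]
        exact ⟨ha1 l, fun _ => ⟨fmem l, le_rfl⟩⟩
      · simp only [if_neg ht]
        exact ⟨N_pos t, fun h => absurd rfl h⟩
  have hFF2 : ∀ l (r : TT), ∃ f ∈ FF l,
      1 / 8 ≤ ‖r + ∑ t ∈ (kk l).support.filter (fun t => u l ≤ t),
        (kk l t) • ((((f t : ℝ) / (N t : ℝ)) : ℝ) : TT)‖ := by
    intro l r
    by_cases hr : 1 / 8 ≤ ‖r‖
    · refine ⟨0, Or.inl rfl, ?_⟩
      simpa using hr
    · refine ⟨fun t => if t = u l then a l else 0, Or.inr rfl, ?_⟩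
      have h1 : ∑ t ∈ (kk l).support.filter (fun t => u l ≤ t),
          (kk l t) • (((((if t = u l then a l else 0 : ℕ) : ℝ) / (N t : ℝ)) : ℝ) : TT) =
          (kk l (u l)) • ((((a l : ℝ) / (N (u l) : ℝ)) : ℝ) : TT) := by
        rw [Finset.sum_eq_single (u l)]
        · simp
        · intro t _ ht
          simp [ht]
        · intro h
          exact absurd (Finset.mem_filter.mpr ⟨fmem l, le_rfl⟩) h
      simp only
      rw [h1]
      have h2 := ha3 l
      have h3 := norm_sub_norm_le ((kk l (u l)) • ((((a l : ℝ) / (N (u l) : ℝ)) : ℝ) : TT)) (-r)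
      rw [norm_neg, sub_neg_eq_add, add_comm _ r] at h3
      push Not at hr
      linarith
  have hFF3 : ∀ g : ℕ → ℕ, (∀ t < u 0, g t = 0) →
      (∀ l, ∃ f ∈ FF l, ∀ t, u l ≤ t → t < u (l + 1) → g t = f t) →
      NullC (fun t => ((((g t : ℝ) / (N t : ℝ)) : ℝ) : TT)) := by
    intro g hg0 hg A _ η hη
    obtain ⟨l0, hl0⟩ := exists_nat_gt (2 / η)
    refine Set.Finite.subset (((Finset.range l0).image u).finite_toSet) ?_
    rintro t ⟨-, ht⟩
    by_contra hnot
    have hsmall : ‖((((g t : ℝ) / (N t : ℝ)) : ℝ) : TT)‖ < η := by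
      by_cases ht0 : t < u 0
      · rw [hg0 t ht0]
        simpa using hη
      · -- the block of t
        have hex : ∃ l, t < u (l + 1) := ⟨t, lt_of_lt_of_le (Nat.lt_succ_self t) hu.le_apply⟩
        have hl1 := Nat.find_spec hex
        have hl2 : u (Nat.find hex) ≤ t := by
          by_contra hlt
          push Not at hlt
          rcases Nat.eq_zero_or_pos (Nat.find hex) with h | h
          · rw [h] at hlt
            exact ht0 hlt
          · have := Nat.find_min hex (m := Nat.find hex - 1) (by omega)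
            apply this
            rwa [Nat.sub_add_cancel h]
        set l := Nat.find hex with hldef
        obtain ⟨f, hf, hgf⟩ := hg l
        rw [hgf t hl2 hl1]
        rcases hf with rfl | rfl
        · simpa using hη
        · by_cases htl : t = u l
          · have hl3 : l0 ≤ l := by
              by_contra hlt
              apply hnot
              rw [htl]
              exact Finset.mem_coe.mpr (Finset.mem_image_of_mem u (Finset.mem_range.mpr (not_le.mp hlt)))
            rw [htl]
            simp only [if_true]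
            refine lt_of_le_of_lt (ha2 l) ?_
            have e1 : ((l : ℝ) + 1) ≤ |((kk l (u l) : ℤ) : ℝ)| := by
              have := flarge l
              have h2 : (l : ℤ) + 1 ≤ |kk l (u l)| := by
                show (l : ℤ) + 1 ≤ |k (st l).1 (st l).2|
                omega
              have h3 : (((l : ℤ) + 1 : ℤ) : ℝ) ≤ ((|kk l (u l)| : ℤ) : ℝ) := by exact_mod_cast h2
              rw [Int.cast_abs] at h3
              simpa using h3
            have e2 : ((l : ℝ) + 1) ≤ (N (u l) : ℝ) := by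
              have h1 := le_N (u l)
              have h2 : l ≤ u l := hu.le_apply
              have h3 : l + 1 ≤ N (u l) := by omega
              exact_mod_cast h3
            have e3 : (0 : ℝ) < (l : ℝ) + 1 := by positivity
            have e4 : 1 / (4 * |((kk l (u l) : ℤ) : ℝ)|) ≤ 1 / ((l : ℝ) + 1) := by
              apply one_div_le_one_div_of_le e3
              linarith
            have e5 : 1 / (N (u l) : ℝ) ≤ 1 / ((l : ℝ) + 1) := one_div_le_one_div_of_le e3 e2
            have e6 : (2 / η) < (l : ℝ) + 1 := by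
              have : (l0 : ℝ) ≤ l := by exact_mod_cast hl3
              linarith
            have e7 : 2 / ((l : ℝ) + 1) < η := by
              rw [div_lt_iff₀ hη] at e6
              rw [div_lt_iff₀ e3]
              linarith
            have e8 : 2 / ((l : ℝ) + 1) = 1 / ((l : ℝ) + 1) + 1 / ((l : ℝ) + 1) := by ring
            linarith
          · simp only [if_neg htl]
            simpa using hη
    have ht' : η ≤ ‖((((g t : ℝ) / (N t : ℝ)) : ℝ) : TT)‖ := ht
    linarith
  obtain ⟨q, hq, hbig⟩ := hGH kk u hu fsup hsum htsum FF hFF1 hFF2 hFF3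
  have hxH : x q ∈ H := AddSubgroup.subset_closure ⟨q, hq, rfl⟩
  have htend := (hnull (x q) hxH).norm
  rw [norm_zero] at htend
  have hev := htend.eventually_lt_const (show (0 : ℝ) < 1 / 8 by norm_num)
  obtain ⟨J0, hJ0⟩ := eventually_atTop.mp hev
  have h1 := hJ0 (st J0).1 hjm.le_apply
  have h2 := hbig J0
  have h3 : ‖pr (kk J0) (x q)‖ = ‖pr (k (st J0).1) (x q)‖ := rfl
  rw [h3] at h2
  linarith

end Pool.Agent.W853.RP
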